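import Pool.Agent.H93.EN.Targets

/-! Bright corners, row EN0: uniform bound of the energies. -/

namespace Pool.Agent.H14.EN

open MeasureTheory Set Metric Pool.Agent.H93.BL Pool.Agent.H93.EN

theorem en0 (h1 : T_EN) (h2 : T_VOL) (h3 : T_INT) : T_EN0 := by
  intro ι _ D
  obtain ⟨C1, hC1, c1, hc1, R₀, hR₀, hen⟩ := h1 ι D
  obtain ⟨CV, hCV, hvol⟩ := h2 ι D
  obtain ⟨-, -, -, hf0, -, -, -⟩ := h3 ι D
  have hκ := D.κpos
  set c' : ℝ := min c1 (D.κ / 10) with hc'
  have hc'0 : 0 < c' := lt_min hc1 (by positivity)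
  have hc'1 : c' ≤ c1 := min_le_left _ _
  have hc'2 : c' ≤ D.κ / 10 := min_le_right _ _
  refine ⟨9 * C1 * CV / c', by positivity, c' / 2, by positivity, c' * R₀, by positivity, ?_⟩
  intro δ hδ
  have hδ0 : 0 < δ := hδ.1
  refine ⟨fun x hx => ?_, fun m => ?_⟩
  · have hrho : 0 < D.rho x := by
      by_contra h
      push Not at h
      have : c' / 2 * D.rho x ≤ 0 := mul_nonpos_of_nonneg_of_nonpos (by positivity) h
      linarith
    have h4 : c' * D.rho x ≤ D.κ / 10 * D.rho x := mul_le_mul_of_nonneg_right hc'2 hrho.le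
    have h5 : 0 < D.κ * D.rho x := by positivity
    nlinarith
  · set R : ℝ := δ / c' with hR
    have hR0 : 0 < R := by positivity
    have hRlt : R < R₀ := by
      rw [hR, div_lt_iff₀ hc'0]
      linarith [hδ.2]
    have hδR : δ = c' * R := by
      rw [hR]
      field_simp
    have h4 := hen R ⟨hR0, hRlt⟩ δ hδ0
      (hδR.le.trans (mul_le_mul_of_nonneg_right hc'1 hR0.le)) m
    have h5 : δ / (c' / 2) = 2 * R := by
      rw [hR]
      field_simp
    rw [h5]
    refine h4.trans ?_
    have h6 : volume (D.Sh (R / 2) (3 * R)) ≤ ENNReal.ofReal (CV * (3 * R) ^ 2) :=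
      (measure_mono fun x hx => hx.2.2).trans (hvol (3 * R) (by positivity))
    have h7 : ∫ y in D.Sh (R / 2) (3 * R), D.f0 y ≤ CV * (3 * R) ^ 2 := by
      have h8 : ‖∫ y in D.Sh (R / 2) (3 * R), D.f0 y‖ ≤
          1 * volume.real (D.Sh (R / 2) (3 * R)) := by
        refine norm_setIntegral_le_of_norm_le_const (h6.trans_lt ENNReal.ofReal_lt_top) ?_
        intro x _
        rw [Real.norm_eq_abs, abs_of_nonneg (hf0 x).1]
        exact (hf0 x).2
      refine (Real.le_norm_self _).trans (h8.trans ?_)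
      rw [one_mul, measureReal_def]
      refine ENNReal.toReal_le_of_le_ofReal (by positivity) h6
    calc C1 / (δ * R) * ∫ y in D.Sh (R / 2) (3 * R), D.f0 y
        ≤ C1 / (δ * R) * (CV * (3 * R) ^ 2) :=
          mul_le_mul_of_nonneg_left h7 (by positivity)
      _ = 9 * C1 * CV / c' := by
          have h9 : C1 / (δ * R) * (CV * (3 * R) ^ 2) = 9 * C1 * CV * (R / δ) := by
            field_simp
            norm_num
          have h10 : R / δ = 1 / c' := by
            rw [hR]
            field_simp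
          rw [h9, h10]
          ring

end Pool.Agent.H14.EN
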