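import Pool.Agent.H93.EN.Targets

/-! Bright corners, row INT: integrability. -/

namespace Pool.Agent.H14.EN

open MeasureTheory Set Metric Pool.Agent.H93.BL Pool.Agent.H93.EN

theorem av_measurable {F : ℂ → ℂ → ℝ} (hF : Measurable (Function.uncurry F)) :
    Measurable fun x => av (F x) := by
  have h1 : Measurable fun p : ℂ × ℝ => F p.1 (Complex.exp ((p.2 : ℂ) * Complex.I)) := by
    have h2 : Measurable fun p : ℂ × ℝ => (p.1, Complex.exp ((p.2 : ℂ) * Complex.I)) := by
      fun_prop
    exact hF.comp h2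
  have h3 : StronglyMeasurable fun x : ℂ => ∫ θ in Ioc (0 : ℝ) (2 * Real.pi),
      F x (Complex.exp ((θ : ℂ) * Complex.I)) :=
    h1.stronglyMeasurable.integral_prod_right'
  unfold av
  refine Measurable.const_mul ?_ _
  have h4 : (fun x : ℂ => ∫ θ in (0 : ℝ)..(2 * Real.pi),
      F x (Complex.exp ((θ : ℂ) * Complex.I))) = fun x : ℂ => ∫ θ in Ioc (0 : ℝ) (2 * Real.pi),
      F x (Complex.exp ((θ : ℂ) * Complex.I)) := by
    funext x
    exact intervalIntegral.integral_of_le (by positivity)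
  rw [h4]
  exact h3.measurable

theorem av_mem {g : ℂ → ℝ} (hg : ∀ w, 0 ≤ g w ∧ g w ≤ 1) : 0 ≤ av g ∧ av g ≤ 1 := by
  have hpi : 0 < 2 * Real.pi := by positivity
  unfold av
  constructor
  · refine mul_nonneg (by positivity) ?_
    exact intervalIntegral.integral_nonneg hpi.le fun θ _ => (hg _).1
  · have h1 := intervalIntegral.norm_integral_le_of_norm_le_const (a := 0) (b := 2 * Real.pi)
      (C := 1) (f := fun θ : ℝ => g (Complex.exp ((θ : ℂ) * Complex.I))) (fun θ _ => by
        rw [Real.norm_eq_abs, abs_of_nonneg (hg _).1]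
        exact (hg _).2)
    rw [sub_zero, abs_of_pos hpi, one_mul] at h1
    have h2 := (Real.le_norm_self _).trans h1
    rw [inv_mul_le_iff₀ hpi, mul_one]
    exact h2

theorem intT (h1 : T_SM) (_h2 : T_U0) (h3 : Pool.Agent.H93.EN.T_SB)
    (_h4 : Pool.Agent.H93.EN.T_B2) : T_INT := by
  intro ι D
  obtain ⟨C, hC, hb⟩ := h3
  have hfin : volume D.P.Ω < ⊤ := D.P.isBounded.measure_lt_top
  refine ⟨D.P.isOpen.measurableSet, hfin, av_measurable D.Fb.1, fun x => av_mem (D.Fb.2.1 x),
    measurable_infDist, fun x y => ?_, fun δ hδ S hS hSm => ?_⟩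
  · have h5 := (lipschitz_infDist_pt D.B).dist_le_mul x y
    rw [Real.dist_eq, NNReal.coe_one, one_mul] at h5
    exact h5
  · obtain ⟨-, ha, ha01, -, hk⟩ := h1 ι D δ hδ
    have hSfin : volume S ≠ ⊤ := by
      refine ne_top_of_le_ne_top hfin.ne (measure_mono fun x hx => ?_)
      exact (hS hx).1
    have key : ∀ {E : Type} [NormedAddCommGroup E] [SecondCountableTopology E] (f : ℂ → E)
        (M : ℝ), ContinuousOn f (D.OM δ) → (∀ x, ‖f x‖ ≤ M) → IntegrableOn f S := by
      intro E _ _ f M hf hM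
      have h6 : AEStronglyMeasurable f (volume.restrict S) :=
        (hf.mono hS).aestronglyMeasurable hSm
      have h7 : IsFiniteMeasure (volume.restrict S) :=
        ⟨by rw [Measure.restrict_apply_univ]; exact hSfin.lt_top⟩
      exact Integrable.of_bound h6 M (Filter.Eventually.of_forall hM)
    refine ⟨key _ 1 ha fun x => ?_, fun k => ?_⟩
    · rw [Real.norm_eq_abs, abs_of_nonneg (ha01 x).1]
      exact (ha01 x).2
    · obtain ⟨hu, hh, hu1, -⟩ := hk k
      refine ⟨key _ (C / δ) hh.norm fun x => ?_, key _ ((C / δ) ^ 2) (hh.norm.pow 2) fun x => ?_,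
        key _ 1 hu.continuousOn hu1⟩
      · rw [norm_norm]
        exact hb ι D δ hδ k x
      · rw [norm_pow, norm_norm]
        exact pow_le_pow_left₀ (norm_nonneg _) (hb ι D δ hδ k x) 2

end Pool.Agent.H14.EN
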