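import Pool.Agent.H72.EN.Targets

/-!
# Sums of differences of a monotone sequence
-/

set_option autoImplicit false

open Finset

namespace Pool.Agent.H14.EN

open Pool.Agent.H72.EN

theorem sub_eq_sum (T : ℕ → ℝ) (a b M : ℕ) (hab : a ≤ b) (hM : b ≤ M) :
    T a - T b = ∑ j ∈ range M, if a ≤ j ∧ j < b then T j - T (j + 1) else 0 := by
  rw [← Finset.sum_filter]
  have h1 : (range M).filter (fun j => a ≤ j ∧ j < b) = Ico a b := by
    ext j
    rw [Finset.mem_filter, Finset.mem_range, Finset.mem_Ico]
    constructor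
    · intro h
      exact h.2
    · intro h
      exact ⟨by omega, h⟩
  rw [h1]
  induction b, hab using Nat.le_induction with
  | base => simp
  | succ b hab ih =>
    rw [Finset.sum_Ico_succ_top hab, ← ih (by omega)]
    · ring
    · ext j
      rw [Finset.mem_filter, Finset.mem_range, Finset.mem_Ico]
      constructor
      · intro h
        exact h.2
      · intro h
        exact ⟨by omega, h⟩

theorem swap (S : Finset ℕ) (w T : ℕ → ℝ) (a b : ℕ → ℕ) (hab : ∀ m ∈ S, a m ≤ b m) (M : ℕ)
    (hM : ∀ m ∈ S, b m ≤ M) : ∑ m ∈ S, w m * (T (a m) - T (b m)) =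
      ∑ j ∈ range M, (∑ m ∈ S.filter (fun m => a m ≤ j ∧ j < b m), w m) *
        (T j - T (j + 1)) := by
  have h1 : ∀ m ∈ S, w m * (T (a m) - T (b m)) =
      ∑ j ∈ range M, if a m ≤ j ∧ j < b m then w m * (T j - T (j + 1)) else 0 := by
    intro m hm
    rw [sub_eq_sum T (a m) (b m) M (hab m hm) (hM m hm), Finset.mul_sum]
    apply Finset.sum_congr rfl
    intro j _
    split_ifs <;> simp
  rw [Finset.sum_congr rfl h1, Finset.sum_comm]
  apply Finset.sum_congr rfl
  intro j _
  rw [← Finset.sum_filter, Finset.sum_mul]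

/-- SWP. Sums of differences of a monotone sequence. -/
theorem pf_SWP : T_SWP := by
  intro S w T a b hw hab hT
  have hD : ∀ j, 0 ≤ T j - T (j + 1) := fun j => sub_nonneg.2 (hT (Nat.le_succ j))
  refine ⟨?_, ?_⟩
  · intro M ω hM hω
    rw [swap S w T a b hab M hM]
    calc ∑ j ∈ range M, (∑ m ∈ S.filter (fun m => a m ≤ j ∧ j < b m), w m) *
          (T j - T (j + 1)) ≤ ∑ j ∈ range M, ω * (T j - T (j + 1)) :=
          Finset.sum_le_sum fun j hj =>
            mul_le_mul_of_nonneg_right (hω j (Finset.mem_range.1 hj)) (hD j)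
      _ = ω * (T 0 - T M) := by
          rw [← Finset.mul_sum, Finset.sum_range_sub']
  · intro p r ω hpr hω
    set M : ℕ := max r (S.sup b) with hM
    rw [swap S w T a b hab M (fun m hm => (Finset.le_sup hm).trans (le_max_right _ _))]
    have h1 : T p - T r = ∑ j ∈ range M, if p ≤ j ∧ j < r then T j - T (j + 1) else 0 :=
      sub_eq_sum T p r M hpr (le_max_left _ _)
    rw [h1, Finset.mul_sum]
    apply Finset.sum_le_sum
    intro j _
    split_ifs with hj
    · exact mul_le_mul_of_nonneg_right (hω j hj.1 hj.2) (hD j)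
    · rw [mul_zero]
      apply mul_nonneg _ (hD j)
      exact Finset.sum_nonneg fun m hm => hw m (Finset.mem_filter.1 hm).1

end Pool.Agent.H14.EN
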