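import Pool.Agent.H72.EN.Targets

/-!
# The weights of the levels
-/

set_option autoImplicit false

open Finset

namespace Pool.Agent.H14.EN

open Pool.Agent.H72.EN

/-- WT2. -/
theorem pf_WT2 : T_WT2 := by
  intro A m₀ me j hA hm₀
  set F := (Icc m₀ me).filter (fun m => A * m - m / 100 ≤ j ∧ j < A * m) with hF
  have hAr : (2 : ℝ) ≤ A := by exact_mod_cast hA
  by_cases hemp : F = ∅
  · rw [hemp, Finset.sum_empty]
    positivity
  have hne : F.Nonempty := Finset.nonempty_iff_ne_empty.2 hemp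
  have hB : (0 : ℝ) < A - 1 / 100 := by linarith
  -- real bounds for the elements
  have hel : ∀ m ∈ F, (m₀ : ℝ) ≤ m ∧ (j : ℝ) < A * m ∧
      ((A : ℝ) - 1 / 100) * m ≤ j := by
    intro m hm
    rw [hF, Finset.mem_filter, Finset.mem_Icc] at hm
    refine ⟨by exact_mod_cast hm.1.1, by exact_mod_cast hm.2.2, ?_⟩
    have h1 : A * m ≤ j + m / 100 := by omega
    have h2 : (A * m : ℝ) ≤ j + (m / 100 : ℕ) := by exact_mod_cast h1
    have h3 : ((m / 100 : ℕ) : ℝ) ≤ m / 100 := by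
      have := @Nat.cast_div_le ℝ _ _ _ m 100
      push_cast at this
      exact this
    linarith
  obtain ⟨m1, hm1⟩ := hne
  obtain ⟨g1, g2, g3⟩ := hel m1 hm1
  have hm₀r : (100 : ℝ) * A ≤ m₀ := by exact_mod_cast hm₀
  have hm1pos : (0 : ℝ) < m1 := by nlinarith
  have hj0 : (0 : ℝ) < j := lt_of_lt_of_le (by positivity) g3
  have hjbig : ((A : ℝ) - 1 / 100) * (100 * A) ≤ (j : ℝ) := by
    calc ((A : ℝ) - 1 / 100) * (100 * A) ≤ ((A : ℝ) - 1 / 100) * (m1 : ℝ) :=
          mul_le_mul_of_nonneg_left (by linarith) hB.le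
      _ ≤ j := g3
  -- each term
  have hterm : ∀ m ∈ F, 1 / (m : ℝ) ≤ A / j := by
    intro m hm
    obtain ⟨k1, k2, k3⟩ := hel m hm
    have hm0 : (0 : ℝ) < m := by nlinarith
    rw [div_le_div_iff₀ hm0 hj0]
    linarith
  -- the number of terms
  have hcard : (F.card : ℝ) ≤ j / ((A : ℝ) - 1 / 100) - j / A + 1 := by
    have hsub : F ⊆ Ioc ⌊(j : ℝ) / A⌋₊ ⌊(j : ℝ) / (A - 1 / 100)⌋₊ := by
      intro m hm
      obtain ⟨k1, k2, k3⟩ := hel m hm
      rw [Finset.mem_Ioc]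
      constructor
      · rw [Nat.floor_lt (by positivity), div_lt_iff₀ (by linarith)]
        linarith
      · apply Nat.le_floor
        rw [le_div_iff₀ hB]
        linarith
    have h1 := Finset.card_le_card hsub
    rw [Nat.card_Ioc] at h1
    have hle : ⌊(j : ℝ) / A⌋₊ ≤ ⌊(j : ℝ) / (A - 1 / 100)⌋₊ := by
      apply Nat.floor_le_floor
      apply div_le_div_of_nonneg_left hj0.le hB
      linarith
    have h2 : (F.card : ℝ) ≤ (⌊(j : ℝ) / (A - 1 / 100)⌋₊ : ℝ) - ⌊(j : ℝ) / A⌋₊ := by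
      rw [← Nat.cast_sub hle]
      exact_mod_cast h1
    have h3 : (⌊(j : ℝ) / (A - 1 / 100)⌋₊ : ℝ) ≤ j / (A - 1 / 100) :=
      Nat.floor_le (by positivity)
    have h4 : (j : ℝ) / A < ⌊(j : ℝ) / A⌋₊ + 1 := Nat.lt_floor_add_one _
    linarith
  have hsum : ∑ m ∈ F, 1 / (m : ℝ) ≤ F.card * (A / j) := by
    calc ∑ m ∈ F, 1 / (m : ℝ) ≤ ∑ m ∈ F, (A : ℝ) / j := Finset.sum_le_sum hterm
      _ = F.card * (A / j) := by rw [Finset.sum_const, nsmul_eq_mul]
  have hAj : (A : ℝ) / j ≤ 1 / (100 * ((A : ℝ) - 1 / 100)) := by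
    rw [div_le_div_iff₀ hj0 (by positivity)]
    linarith
  calc ∑ m ∈ F, 1 / (m : ℝ) ≤ F.card * (A / j) := hsum
    _ ≤ (j / (A - 1 / 100) - j / A + 1) * (A / j) :=
        mul_le_mul_of_nonneg_right hcard (by positivity)
    _ = 1 / (100 * (A - 1 / 100)) + A / j := by
        have h5 : (A : ℝ) ≠ 0 := by linarith
        have h6 : (A : ℝ) - 1 / 100 ≠ 0 := hB.ne'
        have h7 : (A : ℝ) * 100 - 1 ≠ 0 := by
          intro h
          apply h6
          linarith
        field_simp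
        ring
    _ ≤ 1 / (100 * (A - 1 / 100)) + 1 / (100 * (A - 1 / 100)) := by linarith
    _ ≤ 1 / (25 * A) := by
        rw [← two_mul, mul_one_div, div_le_div_iff₀ (by positivity) (by positivity)]
        linarith

end Pool.Agent.H14.EN
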